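import Pool.Agent.Helper71.Sos.Blk
import Pool.Agent.Helper71.Sos.T1.Data

set_option autoImplicit false

namespace Pool.Sos71.T1.D2

open Pool.Sos71

def f0_0 : Fac := ⟨1, ⟨0, 0, 0, 0, 0, 0, 0⟩, 0, false, 0, ⟨0, 0, 0, 0, 0, 0, 0⟩, 0⟩
def its0 : List Itm := [⟨⟨0, 0, 0, 0, 0, 1, 0⟩, 85, f0_0, false⟩,
 ⟨⟨0, 0, 0, 0, 0, 2, 0⟩, 170, f0_0, false⟩,
 ⟨⟨0, 0, 0, 0, 0, 3, 0⟩, 255, f0_0, false⟩,
 ⟨⟨0, 0, 0, 0, 0, 0, 2⟩, 1190, f0_0, false⟩,
 ⟨⟨0, 0, 0, 0, 0, 1, 2⟩, 1275, f0_0, true⟩]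

def l0 : List ℕ := [
 30390498049425890110501508512723393588923924652025922576380,
 45700172043092296708531821600448803760553175839,
 81865828570521224027039295262934716,
 160220783302746896085064,
 299834206673]

def e0 : List ℕ := [
 877830720915863615195248919545281110907712590881821652014560,
 791993349675272635277469156270219815046318110790,
 680964882772118790970425401264960268,
 734290662444416425114315,
 607079081337]

def b0 : Blk := ⟨(.lit 1), ⟨0, 0, 0, 0, 3, 2, 0⟩, 1, its0, 549755813888, 274877906944, l0, 1099511627776, 549755813888, e0, 91419142485851040⟩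

def f1_0 : Fac := ⟨1, ⟨0, 0, 0, 0, 0, 0, 0⟩, 0, false, 0, ⟨0, 0, 0, 0, 0, 0, 0⟩, 0⟩
def its1 : List Itm := [⟨⟨0, 0, 0, 0, 0, 0, 1⟩, 595, f1_0, false⟩,
 ⟨⟨0, 0, 0, 0, 0, 1, 1⟩, 680, f1_0, false⟩,
 ⟨⟨0, 0, 0, 0, 0, 2, 1⟩, 765, f1_0, false⟩,
 ⟨⟨0, 0, 0, 0, 0, 0, 3⟩, 1785, f1_0, true⟩]

def l1 : List ℕ := [
 145344295366738252085781599198921342394961872,
 1677841064116502027197252896454704,
 8806557169287091581657,
 82109725605]

def e1 : List ℕ := [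
 3549474112363102875148565201438632896662832512,
 19306288944112502814418755376143436,
 53535831638405494156922,
 162001858877]

def b1 : Blk := ⟨(.lit 1), ⟨0, 0, 0, 0, 2, 3, 0⟩, 1, its1, 137438953472, 68719476736, l1, 274877906944, 137438953472, e1, 1139774181644062080⟩

def f2_0 : Fac := ⟨1, ⟨0, 0, 0, 0, 0, 0, 0⟩, 0, false, 0, ⟨0, 0, 0, 0, 0, 0, 0⟩, 0⟩
def its2 : List Itm := [⟨⟨0, 0, 0, 0, 0, 0, 0⟩, 0, f2_0, false⟩,
 ⟨⟨0, 0, 0, 0, 0, 1, 0⟩, 85, f2_0, false⟩,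
 ⟨⟨0, 0, 0, 0, 0, 2, 0⟩, 170, f2_0, false⟩,
 ⟨⟨0, 0, 0, 0, 0, 0, 2⟩, 1190, f2_0, true⟩]

def l2 : List ℕ := [
 45570133627940999048167846889993974013354790724,
 81935615769829740833681982054643317,
 148841140481485049384017,
 311899908855]

def e2 : List ℕ := [
 2854495385422304355833679373087914432756857416,
 10384593717107434188924087259103232,
 37778931863094600663040,
 137438953472]

def b2 : Blk := ⟨(.add (.add (.sc (-1) (.pow (.va 6) 2)) (.sc (-2) (.va 5))) (.sc (-1) (.pow (.va 5) 2))), ⟨0, 0, 0, 0, 2, 2, 0⟩, 1, its2, 549755813888, 274877906944, l2, 274877906944, 137438953472, e2, 38557656629395368⟩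

def f3_0 : Fac := ⟨1, ⟨0, 0, 0, 0, 0, 0, 0⟩, 0, false, 0, ⟨0, 0, 0, 0, 0, 0, 0⟩, 0⟩
def its3 : List Itm := [⟨⟨0, 0, 0, 0, 0, 0, 1⟩, 595, f3_0, false⟩,
 ⟨⟨0, 0, 0, 0, 0, 1, 1⟩, 680, f3_0, true⟩]

def l3 : List ℕ := [
 249833562453307428355242,
 300234608375]

def b3 : Blk := ⟨(.add (.add (.sc (-1) (.pow (.va 6) 2)) (.sc (-2) (.va 5))) (.sc (-1) (.pow (.va 5) 2))), ⟨0, 0, 0, 0, 1, 1, 0⟩, 1, its3, 549755813888, 274877906944, l3, 2, 1, [], 0⟩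

def cert : Cert := ⟨85, ⟨7, 49, 49, 49, 49⟩, ⟨0, 0, 0, 0, 6, 6, 0⟩, 108, (.bp c.cen),
 [b0, b1, b2, b3]⟩

theorem ok : cert.check = true := by decide +kernel

end Pool.Sos71.T1.D2
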