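import Pool.Agent.Helper71.Sos.T1.D0
import Pool.Agent.Helper71.Sos.T1.D1
import Pool.Agent.Helper71.Sos.T1.D2
import Pool.Agent.Helper69.EK3.Fin

/-!
The integral means from the certificate, `κ = 73 / 20`.
-/

set_option autoImplicit false
open Complex MeasureTheory Metric Set
open scoped Real

namespace Pool.Sos71.T1

open Pool.Agent.Helper69.EK3

theorem cOk : c.Ok 8 7 where
  wf := by decide +kernel
  M0 := by decide +kernel
  lam0 := by decide +kernel
  c10 := by decide +kernel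
  isg := by decide +kernel
  iaa := by decide +kernel
  iab := by decide +kernel
  ibb := by decide +kernel
  isz := by decide +kernel
  ir := by decide +kernel
  ir0 := by decide +kernel
  ir1 := by decide +kernel
  ir8 := by decide +kernel
  ir2 := by decide +kernel
  osg := by decide +kernel
  oa := by decide +kernel
  ob := by decide +kernel
  oaa := by decide +kernel
  oab := by decide +kernel
  obb := by decide +kernel
  or := by decide +kernel
  or0 := by decide +kernel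
  or1 := by decide +kernel
  or2 := by decide +kernel
  Ld0 := by decide +kernel
  LA := by decide +kernel
  LB := by decide +kernel

theorem hIn (x : Pnt) (h1 : 0 ≤ x.b) (h2 : x.b ≤ x.c) (h3 : 0 ≤ x.a)
    (h4 : ((7 : ℤ) : ℝ) * x.a ≤ ((8 : ℤ) : ℝ)) : 0 ≤ c.tIn.re x := by
  refine sos_pos D0.ok x ?_
  have g1 : 0 ≤ x.b * (x.c - x.b) := mul_nonneg h1 (by linarith)
  have g2 : 0 ≤ x.a * (8 - 7 * x.a) := mul_nonneg h3 (by push_cast at h4; linarith)
  intro b hb
  simp only [D0.cert, List.mem_cons, List.not_mem_nil, or_false] at hb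
  rcases hb with rfl | rfl | rfl | rfl
  · simp [D0.b0, Ex.re]
  · simp only [D0.b1, Ex.re]
    push_cast
    nlinarith
  · simp only [D0.b2, Ex.re]
    push_cast
    nlinarith
  · simp only [D0.b3, Ex.re]
    push_cast
    nlinarith [mul_nonneg g1 g2]

theorem hOut (x : Pnt) (h1 : 0 ≤ x.b) (h2 : x.b ≤ x.c) (h3 : 0 ≤ x.a) (h4 : x.a ≤ 2) :
    0 ≤ c.tOut.re x := by
  refine sos_pos D1.ok x ?_
  have g1 : 0 ≤ x.b * (x.c - x.b) := mul_nonneg h1 (by linarith)
  have g2 : 0 ≤ x.a * (2 - x.a) := mul_nonneg h3 (by linarith)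
  intro b hb
  simp only [D1.cert, List.mem_cons, List.not_mem_nil, or_false] at hb
  rcases hb with rfl | rfl | rfl | rfl
  · simp [D1.b0, Ex.re]
  · simp only [D1.b1, Ex.re]
    push_cast
    nlinarith
  · simp only [D1.b2, Ex.re]
    push_cast
    nlinarith
  · simp only [D1.b3, Ex.re]
    push_cast
    nlinarith [mul_nonneg g1 g2]

theorem hCen (x : Pnt) (h : 0 ≤ -2 * x.f - x.f ^ 2 - x.g ^ 2) : 0 ≤ (Ex.bp c.cen).re x := by
  refine sos_pos D2.ok x ?_
  intro b hb
  simp only [D2.cert, List.mem_cons, List.not_mem_nil, or_false] at hb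
  rcases hb with rfl | rfl | rfl | rfl
  · simp [D2.b0, Ex.re]
  · simp [D2.b1, Ex.re]
  · simp only [D2.b2, Ex.re]
    push_cast
    nlinarith
  · simp only [D2.b3, Ex.re]
    push_cast
    nlinarith

theorem moments (p : ℝ) (hp : 73 / 20 ≤ p) : ∃ C : ℝ, ∀ ψ : ℂ → ℂ,
    DifferentiableOn ℂ ψ {z : ℂ | 1 < ‖z‖} → InjOn ψ {z : ℂ | 1 < ‖z‖} →
    (∃ b : ℂ, Filter.Tendsto (fun z => ψ z - z) (Bornology.cobounded ℂ) (nhds b)) →
    ∀ R : ℝ, 1 < R →
      (2 * π)⁻¹ * (∫ θ in (0:ℝ)..(2 * π), ‖deriv ψ (R * Complex.exp (θ * I))‖ ^ (-p)) ≤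
        C * (R ^ 2 / (R ^ 2 - 1)) ^ (p - 1) := by
  refine cOk.moments hIn hOut hCen (κ := 73 / 20) (by norm_num) ?_ p hp
  have h : (c.lam : ℝ) + c.c1 + (c.c1 + 2 * |(c.a2 : ℝ)|) / 10 ^ 7 < 2 * (73 / 20) * c.M := by
    simp only [c]
    norm_num
  exact h

end Pool.Sos71.T1
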